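import Mathlib

namespace Pool.Agent.Results.MP_00e3a8_gt.Linear

open Finset

/-- a diversity on `Fin n` -/
def IsDiv {n : ℕ} (δ : Finset (Fin n) → ℝ) : Prop :=
  (∀ A, 0 ≤ δ A) ∧ (∀ A, δ A = 0 ↔ #A ≤ 1) ∧
    ∀ A B C, C.Nonempty → δ (A ∪ B) ≤ δ (A ∪ C) + δ (B ∪ C)

/-- the `ℓ₁` diversity of the image `φ(A)` -/
noncomputable def L1 {n k : ℕ} (φ : Fin n → Fin k → ℝ) (A : Finset (Fin n)) : ℝ :=
  ∑ i, ⨆ p : A × A, |φ p.1 i - φ p.2 i|

/-- `φ` has distortion `c` -/
def Dist {n k : ℕ} (δ : Finset (Fin n) → ℝ) (φ : Fin n → Fin k → ℝ) (c : ℝ) : Prop :=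
  ∃ c₁ > 0, ∃ c₂ > 0, c = c₁ * c₂ ∧ ∀ A, 1 / c₁ * δ A ≤ L1 φ A ∧ L1 φ A ≤ c₂ * δ A

theorem sub {n k : ℕ} (φ : Fin n → Fin k → ℝ) (A B : Finset (Fin n)) (z : Fin n) (hA : z ∈ A)
    (hB : z ∈ B) (h : ∀ x, x ∈ A ∨ x ∈ B) : L1 φ univ ≤ L1 φ A + L1 φ B := by
  unfold L1
  rw [← sum_add_distrib]
  refine sum_le_sum fun i _ => ?_
  have : Nonempty (↥(univ : Finset (Fin n))) := ⟨⟨z, mem_univ _⟩⟩
  have e : ∀ (S : Finset (Fin n)) x y, x ∈ S → y ∈ S →
      |φ x i - φ y i| ≤ ⨆ p : S × S, |φ p.1 i - φ p.2 i| := fun S x y hx hy =>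
    le_ciSup (f := fun p : S × S => |φ p.1 i - φ p.2 i|) (Finite.bddAbove_range _) (⟨x, hx⟩, ⟨y, hy⟩)
  refine ciSup_le fun p => ?_
  have t := abs_sub_le (φ p.1 i) (φ z i) (φ p.2 i)
  have a := (abs_nonneg _).trans (e A z z hA hA)
  have b := (abs_nonneg _).trans (e B z z hB hB)
  rcases h p.1 with h1 | h1 <;> rcases h p.2 with h2 | h2
  · linarith [e A _ _ h1 h2]
  · linarith [e A _ _ h1 hA, e B _ _ hB h2]
  · linarith [e B _ _ h1 hB, e A _ _ hA h2]
  · linarith [e B _ _ h1 h2]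

def dv {n : ℕ} (π : Fin n → Fin n) (S : Finset (Fin n)) : ℝ :=
  max (if #S ≤ 1 then 0 else 1) (#(S.image π) - 1)

theorem dv_div {n : ℕ} (π : Fin n → Fin n) : IsDiv (dv π) := by
  refine ⟨fun A => le_max_of_le_left (by positivity), fun A => ⟨fun h => ?_, fun h => ?_⟩,
    fun A B C hC => max_le ?_ ?_⟩
  · by_contra c
    have := (le_max_left _ _).trans_eq h
    rw [if_neg c] at this
    linarith
  · rw [dv, if_pos h, max_eq_left]
    rw [sub_nonpos]
    exact_mod_cast card_image_le.trans h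
  · refine le_trans ?_ (add_le_add (le_max_left _ _) (le_max_left _ _))
    by_cases h4 : #(A ∪ C) ≤ 1
    swap
    · rw [if_neg h4]; split_ifs <;> norm_num
    by_cases h5 : #(B ∪ C) ≤ 1
    swap
    · rw [if_neg h5]; split_ifs <;> norm_num
    rw [if_pos h4, if_pos h5, if_pos, add_zero]
    obtain ⟨c, hc⟩ := hC
    refine (card_le_one.2 fun a ha b hb => ?_)
    have : ∀ a ∈ A ∪ B, a = c := fun a ha => (mem_union.1 ha).elim
      (fun h => card_le_one.1 h4 _ (mem_union_left _ h) _ (mem_union_right _ hc))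
      fun h => card_le_one.1 h5 _ (mem_union_left _ h) _ (mem_union_right _ hc)
    rw [this a ha, this b hb]
  · refine le_trans ?_ (add_le_add (le_max_right _ _) (le_max_right _ _))
    have a := card_union_add_card_inter ((A ∪ C).image π) ((B ∪ C).image π)
    have b : #((A ∪ B).image π) ≤ #((A ∪ C).image π ∪ (B ∪ C).image π) := by
      rw [← image_union]
      exact card_le_card (image_subset_image
        (union_subset_union subset_union_left subset_union_left))
    have c : 0 < #((A ∪ C).image π ∩ (B ∪ C).image π) := card_pos.2 ((hC.image π).mono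
      (subset_inter (image_subset_image subset_union_right) (image_subset_image subset_union_right)))
    have : #((A ∪ B).image π) + 1 ≤ #((A ∪ C).image π) + #((B ∪ C).image π) := by omega
    have : (#((A ∪ B).image π) + 1 : ℝ) ≤ #((A ∪ C).image π) + #((B ∪ C).image π) := by
      exact_mod_cast this
    linarith

theorem dv_pair {n : ℕ} (π : Fin n → Fin n) (x y : Fin n) :
    dv π {x, y} = if x = y then 0 else 1 := by
  split_ifs with h
  · exact ((dv_div π).2.1 _).2 (by simp [h])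
  · rw [dv, card_pair h, if_neg (by norm_num), max_eq_left]
    rw [sub_le_iff_le_add]
    exact_mod_cast card_image_le.trans card_le_two

theorem main (m k : ℕ) (hm : 1 ≤ m) (φ : Fin (2 * m + 1) → Fin k → ℝ) :
    ∃ π, ∀ c, Dist (dv π) φ c → m ≤ 2 * c := by
  let z : Fin (2 * m + 1) := ⟨m, by omega⟩
  have key : ∀ A : Finset (Fin (2 * m + 1)), z ∈ A → #A = m + 1 → L1 φ univ ≤ 2 * L1 φ A →
      ∃ π, ∀ c, Dist (dv π) φ c → m ≤ 2 * c := fun A hz hA h => by
    refine ⟨fun x => if x ∈ A then z else x, ?_⟩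
    rintro _ ⟨c₁, p1, c₂, p2, rfl, H⟩
    have a := (H univ).1
    have b := (H A).2
    have e1 : dv (fun x => if x ∈ A then z else x) A = 1 := by
      rw [dv, if_neg (by omega), max_eq_left]
      rw [image_congr (f := fun x => if x ∈ A then z else x) (s := A) (g := fun _ => z)
        fun x hx => if_pos hx, image_const ⟨z, hz⟩]
      simp
    have e2 : (m : ℝ) ≤ dv (fun x => if x ∈ A then z else x) univ := by
      refine le_max_of_le_right ?_
      have : #(insert z Aᶜ) ≤ #(univ.image fun x => if x ∈ A then z else x) :=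
        card_le_card (insert_subset (mem_image.2 ⟨z, mem_univ _, if_pos hz⟩) fun x hx =>
          mem_image.2 ⟨x, mem_univ _, if_neg (mem_compl.1 hx)⟩)
      rw [card_insert_of_notMem (by simpa using hz), card_compl, hA, Fintype.card_fin,
        show 2 * m + 1 - (m + 1) = m by omega] at this
      rw [le_sub_iff_add_le]
      exact_mod_cast this
    rw [one_div, inv_mul_le_iff₀ p1] at a
    rw [e1] at b
    nlinarith
  have s := sub φ (Iic z) (Ici z) z (by simp) (by simp) fun x => by simpa using le_total x z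
  rcases le_total (L1 φ (Iic z)) (L1 φ (Ici z)) with h | h
  · exact key (Ici z) (by simp) (by simp [z]; omega) (by linarith)
  · exact key (Iic z) (by simp) (by simp [z]) (by linarith)

theorem result :
    (∀ m k : ℕ, 1 ≤ m → ∀ φ : Fin (2 * m + 1) → Fin k → ℝ, ∃ δ, IsDiv δ ∧
      (∀ x y, δ {x, y} = if x = y then 0 else 1) ∧ ∀ c, Dist δ φ c → m ≤ 2 * c) ∧
    ¬∃ (C : ℝ) (r : ∀ n, (Fin n → Fin n → ℝ) → Σ k : ℕ, Fin n → Fin k → ℝ), ∀ n : ℕ, 2 ≤ n →
      ∀ δ, IsDiv δ → ∃ c ≤ C * √n, Dist δ (r n fun x y => δ {x, y}).2 c := by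
  refine ⟨fun m k hm φ => (main m k hm φ).elim fun π h => ⟨_, dv_div π, dv_pair π, h⟩, ?_⟩
  rintro ⟨C, r, h⟩
  obtain ⟨m, hm⟩ := exists_nat_gt (12 * C ^ 2 + 1)
  have m1 : (1 : ℝ) ≤ m := by nlinarith
  have m2 : 1 ≤ m := by exact_mod_cast m1
  obtain ⟨π, hπ⟩ := main m _ m2 (r (2 * m + 1) fun x y => if x = y then 0 else 1).2
  obtain ⟨c, h1, h2⟩ := h (2 * m + 1) (by omega) _ (dv_div π)
  rw [show (fun x y => dv π {x, y}) = fun x y => if x = y then 0 else 1 from
    funext₂ (dv_pair π)] at h2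
  have a := pow_le_pow_left₀ (by positivity) ((hπ c h2).trans (by linarith :
    2 * c ≤ 2 * (C * √(2 * m + 1 : ℕ)))) 2
  rw [mul_pow, mul_pow, Real.sq_sqrt (by positivity)] at a
  push_cast at a
  nlinarith [sq_nonneg C]

end Pool.Agent.Results.MP_00e3a8_gt.Linear
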